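import Pool.Agent.W2helper44.CP.Stm

/-!
# Piece CPT of project CP: compactness
-/

set_option autoImplicit false

open Set Filter Topology

noncomputable section

namespace Pool.Agent.W2helper44.CP

namespace H88

variable {ι : Type} [Fintype ι] {M : Set (Eu ι)}

theorem key {y0 z0 : Eu ι} (hy0 : y0 ∈ M) (hz0 : z0 ∈ M) (hD : ∀ y ∈ M, ∀ z ∈ M, ‖y - z‖ ≤ ‖y0 - z0‖)
    {F : Eu ι → Eu ι} (hF : IsDiffeo M F) {δ : ℝ} (hδ0 : 0 < δ) (hδ : δ ≤ 1 / 2)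
    (hfl : Flat M δ F) : ∀ y ∈ M, ∀ z ∈ M,
      |‖F y - F z‖ ^ 2 - ‖y - z‖ ^ 2| ≤ 4 * δ * ‖y0 - z0‖ ^ 2 := by
  intro y hy z hz
  obtain ⟨-, hFM, G, -, hGM, -, hFG⟩ := hF
  rcases (norm_nonneg (y0 - z0)).eq_or_lt with h0 | hpos
  · have h1 : ‖y - z‖ = 0 := le_antisymm (by rw [h0]; exact hD y hy z hz) (norm_nonneg _)
    have h2 : ‖F y - F z‖ = 0 :=
      le_antisymm (by rw [h0]; exact hD _ (hFM hy) _ (hFM hz)) (norm_nonneg _)
    rw [h1, h2, ← h0]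
    norm_num
  set D := ‖y0 - z0‖ with hDdef
  obtain ⟨l, hl, hl'⟩ := hfl y0 hy0 D hpos
  have hall : ∀ y ∈ M, ∀ z ∈ M, |‖F y - F z‖ ^ 2 - l * ‖y - z‖ ^ 2| ≤ δ * l * D ^ 2 :=
    fun y hy z hz => hl' y hy z hz (hD y hy y0 hy0) (hD z hz y0 hy0)
  have hD2 : 0 < D ^ 2 := by positivity
  -- upper bound for l
  have hu : l * (1 - δ) ≤ 1 := by
    have h1 := abs_le.1 (hall y0 hy0 z0 hz0)
    have h2 : ‖F y0 - F z0‖ ^ 2 ≤ D ^ 2 :=
      pow_le_pow_left₀ (norm_nonneg _) (hD _ (hFM hy0) _ (hFM hz0)) 2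
    rw [← hDdef] at h1
    have h3 : l * (1 - δ) * D ^ 2 ≤ 1 * D ^ 2 := by nlinarith [h1.1, h2]
    exact le_of_mul_le_mul_right h3 hD2
  -- lower bound for l
  have hlo : 1 ≤ l * (1 + δ) := by
    have h1 := abs_le.1 (hall (G y0) (hGM hy0) (G z0) (hGM hz0))
    rw [hFG y0 hy0, hFG z0 hz0, ← hDdef] at h1
    have h2 : ‖G y0 - G z0‖ ^ 2 ≤ D ^ 2 :=
      pow_le_pow_left₀ (norm_nonneg _) (hD _ (hGM hy0) _ (hGM hz0)) 2
    have h4 : l * ‖G y0 - G z0‖ ^ 2 ≤ l * D ^ 2 := mul_le_mul_of_nonneg_left h2 hl.le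
    have h3 : 1 * D ^ 2 ≤ l * (1 + δ) * D ^ 2 := by nlinarith [h1.2, h4]
    exact le_of_mul_le_mul_right h3 hD2
  have hl2 : l ≤ 2 := by nlinarith
  have hlu : l - 1 ≤ 2 * δ := by nlinarith
  have hll : -(2 * δ) ≤ l - 1 := by nlinarith
  have h1 := hall y hy z hz
  have h2 : |(l - 1) * ‖y - z‖ ^ 2| ≤ 2 * δ * D ^ 2 := by
    rw [abs_mul, abs_of_nonneg (sq_nonneg ‖y - z‖)]
    exact mul_le_mul (abs_le.2 ⟨hll, hlu⟩)
      (pow_le_pow_left₀ (norm_nonneg _) (hD y hy z hz) 2) (sq_nonneg _) (by positivity)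
  have h3 : δ * l * D ^ 2 ≤ 2 * δ * D ^ 2 := by
    refine mul_le_mul_of_nonneg_right ?_ hD2.le
    nlinarith
  calc |‖F y - F z‖ ^ 2 - ‖y - z‖ ^ 2|
      = |(‖F y - F z‖ ^ 2 - l * ‖y - z‖ ^ 2) + (l - 1) * ‖y - z‖ ^ 2| := by congr 1; ring
    _ ≤ |‖F y - F z‖ ^ 2 - l * ‖y - z‖ ^ 2| + |(l - 1) * ‖y - z‖ ^ 2| := abs_add_le _ _
    _ ≤ 4 * δ * D ^ 2 := by linarith

theorem diam_attained (hM : IsCompact M) (hne : M.Nonempty) :
    ∃ y0 ∈ M, ∃ z0 ∈ M, ∀ y ∈ M, ∀ z ∈ M, ‖y - z‖ ≤ ‖y0 - z0‖ := by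
  have hcont : Continuous fun p : Eu ι × Eu ι => ‖p.1 - p.2‖ :=
    (continuous_fst.sub continuous_snd).norm
  obtain ⟨p, hp, hmax⟩ := (hM.prod hM).exists_isMaxOn (hne.prod hne) hcont.continuousOn
  rw [isMaxOn_iff] at hmax
  refine ⟨p.1, (Set.mem_prod.1 hp).1, p.2, (Set.mem_prod.1 hp).2, fun y hy z hz => ?_⟩
  exact hmax (y, z) (Set.mk_mem_prod hy hz)

end H88

open H88 in
theorem p_CPT : P_CPT := by
  intro ι _ M hM ε hε
  rcases M.eq_empty_or_nonempty with hem | hne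
  · subst hem
    refine ⟨1, one_pos, fun F _ _ => ⟨fun x => x, ?_, ?_, ?_⟩⟩
    · intro x hx; exact hx.elim
    · intro x hx; exact hx.elim
    · intro x hx; exact hx.elim
  obtain ⟨y0, hy0, z0, hz0, hD⟩ := diam_attained hM hne
  by_contra hcon
  push Not at hcon
  have hδk : ∀ k : ℕ, (0 : ℝ) < 1 / ((k : ℝ) + 2) := fun k => by positivity
  choose F hFd hFf hFg using fun k : ℕ => hcon (1 / ((k : ℝ) + 2)) (hδk k)
  have hkey : ∀ k : ℕ, ∀ y ∈ M, ∀ z ∈ M, |‖F k y - F k z‖ ^ 2 - ‖y - z‖ ^ 2| ≤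
      4 * (1 / ((k : ℝ) + 2)) * ‖y0 - z0‖ ^ 2 := fun k =>
    key hy0 hz0 hD (hFd k) (hδk k) (by
      rw [div_le_div_iff₀ (by positivity) (by norm_num)]
      have : (0 : ℝ) ≤ k := Nat.cast_nonneg k
      linarith) (hFf k)
  -- limits along an ultrafilter
  let U : Ultrafilter ℕ := hyperfilter ℕ
  have hU : (U : Filter ℕ) ≤ atTop := by
    rw [← Nat.cofinite_eq_atTop]
    exact hyperfilter_le_cofinite
  have hlim : ∀ x ∈ M, ∃ a ∈ M, Tendsto (fun k => F k x) U (𝓝 a) := by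
    intro x hx
    obtain ⟨a, ha, hle⟩ := hM.ultrafilter_le_nhds (U.map fun k => F k x) (by
      rw [Ultrafilter.coe_map, le_principal_iff]
      exact Filter.mem_map.2 (Filter.univ_mem' fun k => (hFd k).2.1 hx))
    exact ⟨a, ha, hle⟩
  choose! g hgM hgl using hlim
  have herr : Tendsto (fun k : ℕ => 4 * (1 / ((k : ℝ) + 2)) * ‖y0 - z0‖ ^ 2) atTop (𝓝 0) := by
    have h1 : Tendsto (fun k : ℕ => 1 / ((k : ℝ) + 2)) atTop (𝓝 0) := by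
      have h2 : Tendsto (fun k : ℕ => ((k : ℝ) + 2)) atTop atTop :=
        tendsto_atTop_add_const_right _ _ tendsto_natCast_atTop_atTop
      exact h2.inv_tendsto_atTop.congr fun k => by simp [one_div]
    have h2 := (h1.const_mul 4).mul_const (‖y0 - z0‖ ^ 2)
    simpa using h2
  have hgiso : ∀ x ∈ M, ∀ y ∈ M, ‖g x - g y‖ = ‖x - y‖ := by
    intro x hx y hy
    have h1 : Tendsto (fun k => ‖F k x - F k y‖ ^ 2) U (𝓝 (‖g x - g y‖ ^ 2)) :=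
      (((hgl x hx).sub (hgl y hy)).norm).pow 2
    have h2 : Tendsto (fun k => ‖F k x - F k y‖ ^ 2 - ‖x - y‖ ^ 2) U (𝓝 0) :=
      squeeze_zero_norm (fun k => by
        rw [Real.norm_eq_abs]; exact hkey k x hx y hy) (herr.mono_left hU)
    have h3 : Tendsto (fun k => ‖F k x - F k y‖ ^ 2) U (𝓝 (‖x - y‖ ^ 2)) := by
      have := h2.add_const (‖x - y‖ ^ 2)
      simpa using this
    have h4 := tendsto_nhds_unique h1 h3
    exact (pow_left_inj₀ (norm_nonneg _) (norm_nonneg _) two_ne_zero).1 h4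
  -- a finite net
  have hε6 : 0 < ε / 6 := by positivity
  obtain ⟨T, hTM, hTf, hcov⟩ := hM.finite_cover_balls hε6
  have hev1 : ∀ᶠ k in (U : Filter ℕ), ∀ p ∈ T, ‖F k p - g p‖ ≤ ε / 3 := by
    rw [Filter.eventually_all_finite hTf]
    intro p hp
    have h1 := (hgl p (hTM hp)).sub_const (g p)
    rw [sub_self] at h1
    have h2 := h1.norm
    rw [norm_zero] at h2
    exact (h2.eventually (ge_mem_nhds (show (0 : ℝ) < ε / 3 by positivity)))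
  have hev2 : ∀ᶠ k : ℕ in (U : Filter ℕ), 4 * (1 / ((k : ℝ) + 2)) * ‖y0 - z0‖ ^ 2 ≤ (ε / 6) ^ 2 :=
    ((herr.mono_left hU).eventually (ge_mem_nhds (by positivity)))
  obtain ⟨k, hk1, hk2⟩ := (hev1.and hev2).exists
  obtain ⟨x, hx, hbad⟩ := hFg k g (fun x hx => hgM x hx) hgiso
  obtain ⟨p, hp, hxp⟩ : ∃ p ∈ T, x ∈ Metric.ball p (ε / 6) := by
    simpa using hcov hx
  have hpM := hTM hp
  have hxp' : ‖x - p‖ ≤ ε / 6 := by
    rw [Metric.mem_ball, dist_eq_norm] at hxp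
    exact hxp.le
  have h1 : ‖F k x - F k p‖ ≤ ε / 3 := by
    have h2 := (abs_le.1 (hkey k x hx p hpM)).2
    have h3 : ‖x - p‖ ^ 2 ≤ (ε / 6) ^ 2 := pow_le_pow_left₀ (norm_nonneg _) hxp' 2
    have h4 : ‖F k x - F k p‖ ^ 2 ≤ (ε / 3) ^ 2 := by nlinarith
    exact le_of_sq_le_sq h4 (by positivity)
  have h2 : ‖g p - g x‖ ≤ ε / 6 := by
    rw [hgiso p hpM x hx, norm_sub_rev]; exact hxp'
  have h3 : ‖F k x - g x‖ ≤ ε := by
    calc ‖F k x - g x‖ = ‖(F k x - F k p) + (F k p - g p) + (g p - g x)‖ := by congr 1; abel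
      _ ≤ ‖F k x - F k p‖ + ‖F k p - g p‖ + ‖g p - g x‖ := norm_add₃_le
      _ ≤ ε / 3 + ε / 3 + ε / 6 := add_le_add (add_le_add h1 (hk1 p hp)) h2
      _ ≤ ε := by linarith
  exact absurd h3 (not_le.2 hbad)

end Pool.Agent.W2helper44.CP
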